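import Pool.Agent.Helper67.Cube6.Signed

/-!
# Counting many orbits at once

Up to sixteen orbits are processed together: orbit `r` uses bit `r` of the 16-bit lanes of one big
number, so that the intersection of the facet half spaces of a simplex costs one conjunction per
facet for all of them.
-/

set_option autoImplicit false

namespace Helper51.Cube6

open Helper67.Cube

/-- positive part of the coefficient `j` of the functional with code `m` -/
def ca (m j : ℕ) : ℕ := (m >>> (5 * j)) % 32 - 16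

/-- negative part of the coefficient `j` of the functional with code `m` -/
def cb (m j : ℕ) : ℕ := 16 - (m >>> (5 * j)) % 32

/-- `acc + a * X` with shortcuts -/
def addS (a X acc : ℕ) : ℕ :=
  bif Nat.beq a 0 then acc else bif Nat.beq a 1 then acc + X else acc + a * X

/-- `acc - a * X` with shortcuts -/
def subS (a X acc : ℕ) : ℕ :=
  bif Nat.beq a 0 then acc else bif Nat.beq a 1 then acc - X else acc - a * X

lemma addS_eq (a X acc : ℕ) : addS a X acc = acc + a * X := by
  unfold addS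
  cases h : Nat.beq a 0
  · cases h1 : Nat.beq a 1
    · rfl
    · rw [Nat.eq_of_beq_eq_true h1]; simp
  · rw [Nat.eq_of_beq_eq_true h]; simp

lemma subS_eq (a X acc : ℕ) : subS a X acc = acc - a * X := by
  unfold subS
  cases h : Nat.beq a 0
  · cases h1 : Nat.beq a 1
    · rfl
    · rw [Nat.eq_of_beq_eq_true h1]; simp
  · rw [Nat.eq_of_beq_eq_true h]; simp

/-- add a linear combination -/
def addA (a X : ℕ → ℕ) : ℕ → ℕ → ℕ
  | 0, acc => acc
  | n+1, acc => addA a X n (addS (a n) (X n) acc)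

/-- subtract a linear combination -/
def subA (a X : ℕ → ℕ) : ℕ → ℕ → ℕ
  | 0, acc => acc
  | n+1, acc => subA a X n (subS (a n) (X n) acc)

lemma addA_eq (a X : ℕ → ℕ) (n : ℕ) : ∀ acc, addA a X n acc = acc + ∑ i : Fin n, a i * X i := by
  induction n with
  | zero => intro acc; simp [addA]
  | succ n ih =>
    intro acc
    rw [addA, ih, addS_eq, Fin.sum_univ_castSucc]
    simp only [Fin.val_castSucc, Fin.val_last]
    ring

lemma subA_eq (a X : ℕ → ℕ) (n : ℕ) : ∀ acc, subA a X n acc = acc - ∑ i : Fin n, a i * X i := by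
  induction n with
  | zero => intro acc; simp [subA]
  | succ n ih =>
    intro acc
    rw [subA, ih, subS_eq, Fin.sum_univ_castSucc, Nat.sub_sub]
    simp only [Fin.val_castSucc, Fin.val_last]
    congr 1
    ring

/-- packed values (plus `2 ^ 15 - e`) of the functional with code `m` -/
def vN (Q e m : ℕ) (X : ℕ → ℕ) (one : ℕ) : ℕ :=
  subA (fun j => cb m (j+1)) X 6
    (addA (fun j => ca m (j+1)) X 6 ((2 ^ 15 - e + ca m 0 * Q - cb m 0 * Q) * one))

lemma vN_eq {Q e m : ℕ} {X : ℕ → ℕ} {one : ℕ} (he : e ≤ 1) (h : cb m 0 * Q < 2 ^ 15) :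
    vN Q e m X one = cmpE 6 Q 16 e (ca m) (cb m) X one := by
  unfold vN cmpE linP
  rw [subA_eq, addA_eq, linN_eq, linN_eq]
  set S := ∑ i : Fin 6, ca m (i + 1) * X i
  set T := ∑ i : Fin 6, cb m (i + 1) * X i
  obtain ⟨k, hk⟩ : ∃ k, 2 ^ 15 - e + ca m 0 * Q = cb m 0 * Q + k :=
    ⟨2 ^ 15 - e + ca m 0 * Q - cb m 0 * Q, by
      have : cb m 0 * Q ≤ 2 ^ 15 - e := by omega
      omega⟩
  have e1 : 2 ^ 15 - e + ca m 0 * Q - cb m 0 * Q = k := by omega
  rw [e1]
  have e2 : (2 ^ (16 - 1) - e) * one + (ca m 0 * Q * one + S)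
      = cb m 0 * Q * one + (k * one + S) := by
    calc (2 ^ (16 - 1) - e) * one + (ca m 0 * Q * one + S)
        = (2 ^ 15 - e + ca m 0 * Q) * one + S := by ring
      _ = cb m 0 * Q * one + (k * one + S) := by rw [hk]; ring
  rw [e2, Nat.add_sub_add_left]

/-- half space masks of the orbits `r < g` of the functional `m`, one bit position each -/
def cfN (Q : ℕ) (ev : ℕ → ℕ) (Xv : ℕ → ℕ → ℕ) (one m : ℕ) : ℕ → ℕ
  | 0 => 0
  | r+1 => ((vN Q (ev r) m (Xv r) one >>> (15 - r)) &&& (one <<< r)) ||| cfN Q ev Xv one m r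

lemma shl_testBit (x r i : ℕ) : (x <<< r).testBit i = (decide (r ≤ i) && x.testBit (i - r)) := by
  rw [Nat.testBit_shiftLeft]

section masks
variable {one : ℕ} (hone : ∀ i, one.testBit i = true → i % 16 = 0)
include hone

lemma shl_disj {r r' i : ℕ} (hr : r < 16) (hr' : r' < 16) (h : (one <<< r).testBit i = true)
    (h' : (one <<< r').testBit i = true) : r = r' := by
  rw [shl_testBit, Bool.and_eq_true, decide_eq_true_eq] at h h'
  have h1 := hone _ h.2
  have h2 := hone _ h'.2
  omega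

lemma cfN_testBit_ge {Q : ℕ} {ev : ℕ → ℕ} {Xv : ℕ → ℕ → ℕ} {m g r i : ℕ} (hr : r < 16)
    (hgr : g ≤ r) (hi : (one <<< r).testBit i = true) : (cfN Q ev Xv one m g).testBit i = false := by
  induction g with
  | zero => simp [cfN]
  | succ g ih =>
    rw [cfN, Nat.testBit_or, ih (by omega), Bool.or_false, Nat.testBit_and]
    have h1 : (one <<< g).testBit i = false := by
      rw [Bool.eq_false_iff]
      intro h
      have := shl_disj hone hr (by omega) hi h
      omega
    rw [h1, Bool.and_false]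

lemma cfN_testBit {Q : ℕ} {ev : ℕ → ℕ} {Xv : ℕ → ℕ → ℕ} {m g r i : ℕ} (hg : g ≤ 16)
    (hr : r < g) (hi : (one <<< r).testBit i = true) :
    (cfN Q ev Xv one m g).testBit i = (vN Q (ev r) m (Xv r) one).testBit (i + (15 - r)) := by
  induction g with
  | zero => omega
  | succ g ih =>
    rw [cfN, Nat.testBit_or, Nat.testBit_and]
    by_cases hrg : r = g
    · subst hrg
      rw [cfN_testBit_ge hone (by omega) le_rfl hi, hi, Bool.and_true, Bool.or_false,
        Nat.testBit_shiftRight, add_comm]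
    · have h1 : (one <<< g).testBit i = false := by
        rw [Bool.eq_false_iff]
        intro h
        exact hrg (shl_disj hone (by omega) (by omega) hi h)
      rw [h1, Bool.and_false, Bool.false_or]
      exact ih (by omega) (by omega)

end masks

/-- conjunction of `F m` over the list `m :: l` -/
def andL (F : ℕ → ℕ) : ℕ → List ℕ → ℕ
  | m, [] => F m
  | m, m' :: l => F m &&& andL F m' l

lemma andL_testBit (F : ℕ → ℕ) (i : ℕ) (l : List ℕ) : ∀ m, (andL F m l).testBit i = true ↔
    ∀ m' ∈ m :: l, (F m').testBit i = true := by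
  induction l with
  | nil => intro m; simp [andL]
  | cons a l ih =>
    intro m
    rw [andL, Nat.testBit_and, Bool.and_eq_true, ih]
    exact (List.forall_mem_cons (p := fun m' => (F m').testBit i = true)).symm

lemma maskE_testBit {d Q b e : ℕ} {ap an : ℕ → ℕ → ℕ} {X : ℕ → ℕ} {one : ℕ} (n i : ℕ) :
    (maskE d Q b e ap an X one n).testBit i = true ↔ (2 ^ (b-1) * one).testBit i = true ∧
      ∀ k < n, (cmpE d Q b e (ap k) (an k) X one).testBit i = true := by
  induction n with
  | zero => simp [maskE]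
  | succ n ih =>
    rw [maskE, Nat.testBit_and, Bool.and_eq_true, ih]
    constructor
    · rintro ⟨h1, h2, h3⟩
      refine ⟨h2, fun k hk => ?_⟩
      rcases Nat.lt_succ_iff_lt_or_eq.1 hk with h | h
      · exact h3 k h
      · rw [h]; exact h1
    · rintro ⟨h1, h2⟩
      exact ⟨h2 n (Nat.lt_succ_self n), h1, fun k hk => h2 k (by omega)⟩

lemma forall_getD {n : ℕ} {f : List ℕ} (hf : f.length = n) (P : ℕ → Prop) :
    (∀ k < n, P (f.getD k 0)) ↔ ∀ m ∈ f, P m := by
  subst hf
  constructor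
  · intro h m hm
    obtain ⟨k, hk, rfl⟩ := List.mem_iff_getElem.1 hm
    have := h k hk
    rwa [List.getD_eq_getElem _ _ hk] at this
  · intro h k hk
    rw [List.getD_eq_getElem _ _ hk]
    exact h _ (List.getElem_mem hk)

/-- number of group elements moving orbit `r` into the region, from the joint mask `A` -/
def cR (A one r : ℕ) : ℕ := (A &&& (one <<< r)) % 65535 * 2 ^ (16 - r) % 65535

theorem and_sel {Q : ℕ} {ev : ℕ → ℕ} {Xv : ℕ → ℕ → ℕ} {one m g r : ℕ} {l : List ℕ}
    (hone : ∀ i, one.testBit i = true → i % 16 = 0) (hg : g ≤ 16) (hr : r < g) (he : ev r ≤ 1)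
    (hlen : (m :: l).length = 7) (hs : ∀ m' ∈ m :: l, cb m' 0 * Q < 2 ^ 15) :
    andL (fun m => cfN Q ev Xv one m g) m l &&& (one <<< r) =
      (maskE 6 Q 16 (ev r) (fun k => ca ((m :: l).getD k 0)) (fun k => cb ((m :: l).getD k 0))
        (Xv r) one 7 / 2 ^ 15) <<< r := by
  refine Nat.eq_of_testBit_eq fun i => ?_
  rw [Bool.eq_iff_iff, Nat.testBit_and, Bool.and_eq_true, andL_testBit,
    shl_testBit (maskE 6 Q 16 (ev r) _ _ (Xv r) one 7 / 2 ^ 15) r i, Bool.and_eq_true,
    decide_eq_true_eq, Nat.testBit_div_two_pow, maskE_testBit]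
  have hp : ∀ j, (2 ^ (16 - 1) * one).testBit (j + 15) = one.testBit j := by
    intro j
    rw [Nat.testBit_two_pow_mul]
    simp
  have key : (one <<< r).testBit i = true → r ≤ i → ∀ m' ∈ m :: l,
      (cfN Q ev Xv one m' g).testBit i =
        (cmpE 6 Q 16 (ev r) (ca m') (cb m') (Xv r) one).testBit (i - r + 15) := by
    intro h hri m' hm'
    rw [cfN_testBit hone hg hr h, vN_eq he (hs m' hm')]
    congr 1
    omega
  constructor
  · rintro ⟨h1, h2⟩
    have h3 := h2
    rw [shl_testBit, Bool.and_eq_true, decide_eq_true_eq] at h3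
    refine ⟨h3.1, ?_, ?_⟩
    · rw [hp]; exact h3.2
    · refine (forall_getD hlen (fun m' => (cmpE 6 Q 16 (ev r) (ca m') (cb m') (Xv r) one).testBit
        (i - r + 15) = true)).2 fun m' hm' => ?_
      rw [← key h2 h3.1 m' hm']
      exact h1 m' hm'
  · rintro ⟨h1, h2, h3⟩
    rw [hp] at h2
    have h4 : (one <<< r).testBit i = true := by
      rw [shl_testBit, Bool.and_eq_true, decide_eq_true_eq]
      exact ⟨h1, h2⟩
    refine ⟨fun m' hm' => ?_, h4⟩
    rw [key h4 h1 m' hm']
    exact (forall_getD hlen (fun m' => (cmpE 6 Q 16 (ev r) (ca m') (cb m') (Xv r) one).testBit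
        (i - r + 15) = true)).1 h3 m' hm'

theorem cR_eq {Q : ℕ} {ev : ℕ → ℕ} {Xv : ℕ → ℕ → ℕ} {one m g r : ℕ} {l : List ℕ}
    (hone : ∀ i, one.testBit i = true → i % 16 = 0) (hg : g ≤ 16) (hr : r < g) (he : ev r ≤ 1)
    (hlen : (m :: l).length = 7) (hs : ∀ m' ∈ m :: l, cb m' 0 * Q < 2 ^ 15) :
    cR (andL (fun m => cfN Q ev Xv one m g) m l) one r =
      cntE 6 Q 16 (ev r) (fun k => ca ((m :: l).getD k 0)) (fun k => cb ((m :: l).getD k 0))
        (Xv r) one 7 := by
  unfold cR cntE
  rw [and_sel hone hg hr he hlen hs, Nat.shiftLeft_eq]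
  set Z := maskE 6 Q 16 (ev r) (fun k => ca ((m :: l).getD k 0))
    (fun k => cb ((m :: l).getD k 0)) (Xv r) one 7 / 2 ^ 15
  have h1 : (2 : ℕ) ^ 16 - 1 = 65535 := by norm_num
  rw [h1]
  have h3 : Z * 2 ^ r % 65535 * 2 ^ (16 - r) ≡ Z [MOD 65535] := by
    calc Z * 2 ^ r % 65535 * 2 ^ (16 - r) ≡ Z * 2 ^ r * 2 ^ (16 - r) [MOD 65535] :=
          Nat.ModEq.mul_right _ (Nat.mod_modEq _ _)
      _ = Z * 65536 := by
          rw [mul_assoc, ← pow_add, show r + (16 - r) = 16 by omega]; norm_num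
      _ ≡ Z * 1 [MOD 65535] := Nat.ModEq.mul_left _ (by decide)
      _ = Z := mul_one _
  exact h3

end Helper51.Cube6
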